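import Mathlib

/-!
MP_efd95c, wheels: the inequality X1 (four points). Half chords `a`, `y`, `b` (sines of the half
arcs), angles measured from the direction opposite to `a`.
-/

set_option autoImplicit false
noncomputable section
namespace H82EF

open Real

/-- half arc between the points at half distances `a`, `b`, angle `π - ψ` at the hub -/
def hdp (a b ψ : ℝ) : ℝ := arcsin (sqrt (a ^ 2 + b ^ 2 + 2 * a * b * cos ψ))

theorem arcsin_convex : ConvexOn ℝ (Set.Icc (0 : ℝ) 1) arcsin := by
  refine MonotoneOn.convexOn_of_deriv (convex_Icc 0 1) continuous_arcsin.continuousOn ?_ ?_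
  · rw [interior_Icc]
    intro x hx
    exact (differentiableAt_arcsin.2 ⟨by linarith [hx.1], by linarith [hx.2]⟩).differentiableWithinAt
  · rw [interior_Icc]
    intro x hx y hy hxy
    rw [deriv_arcsin]
    simp only
    have h1 : 0 < 1 - y ^ 2 := by nlinarith [hy.1, hy.2]
    have h2 : 1 - y ^ 2 ≤ 1 - x ^ 2 := by nlinarith [hx.1, hy.1]
    have h3 : 0 < sqrt (1 - y ^ 2) := sqrt_pos.2 h1
    exact one_div_le_one_div_of_le h3 (sqrt_le_sqrt h2)

/-- convex functions and majorization of pairs -/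
theorem cvx_pair {f : ℝ → ℝ} (hf : ConvexOn ℝ (Set.Icc (0 : ℝ) 1) f) {u v p q : ℝ} (hp : 0 ≤ p)
    (hq : q ≤ 1) (h1 : p ≤ u) (h2 : u ≤ q) (h3 : u + v = p + q) : f u + f v ≤ f p + f q := by
  rcases eq_or_lt_of_le (h1.trans h2) with h | h
  · have e1 : u = q := by linarith
    have e2 : v = p := by linarith
    rw [e1, e2]
    linarith
  · have hd : 0 < q - p := by linarith
    have hP : p ∈ Set.Icc (0 : ℝ) 1 := ⟨hp, by linarith⟩
    have hQ : q ∈ Set.Icc (0 : ℝ) 1 := ⟨by linarith, hq⟩
    have a0 : 0 ≤ (u - p) / (q - p) := div_nonneg (by linarith) hd.le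
    have a1 : 0 ≤ (q - u) / (q - p) := div_nonneg (by linarith) hd.le
    have as : (q - u) / (q - p) + (u - p) / (q - p) = 1 := by
      field_simp
      ring
    have as' : (u - p) / (q - p) + (q - u) / (q - p) = 1 := by
      rw [add_comm]
      exact as
    have k1 := hf.2 hP hQ a1 a0 as
    have k2 := hf.2 hP hQ a0 a1 as'
    simp only [smul_eq_mul] at k1 k2
    have e1 : (q - u) / (q - p) * p + (u - p) / (q - p) * q = u := by
      field_simp
      ring
    have e2 : (u - p) / (q - p) * p + (q - u) / (q - p) * q = v := by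
      have : v = p + q - u := by linarith
      rw [this]
      field_simp
      ring
    rw [e1] at k1
    rw [e2] at k2
    have e3 : (q - u) / (q - p) * f p + (u - p) / (q - p) * f q +
        ((u - p) / (q - p) * f p + (q - u) / (q - p) * f q) =
        ((q - u) / (q - p) + (u - p) / (q - p)) * (f p + f q) := by ring
    rw [as, one_mul] at e3
    linarith

theorem arcsin_super {u v : ℝ} (hu : 0 ≤ u) (hv : 0 ≤ v) (h : u + v ≤ 1) :
    arcsin u + arcsin v ≤ arcsin (u + v) := by
  have := cvx_pair arcsin_convex (u := u) (v := v) (p := 0) (q := u + v) le_rfl h hu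
    (by linarith) (by ring)
  rw [arcsin_zero] at this
  linarith

/-- weak majorization of `(p', α, β)` by `(p, q, 0)` -/
theorem arcsin_maj {p q p' α β : ℝ} (hα : 0 ≤ α) (hβ : 0 ≤ β) (hp' : 0 ≤ p') (hp : p ≤ 1)
    (hq : q ≤ 1) (h1 : p' ≤ p) (h2 : α ≤ q) (h3 : β ≤ q) (h4 : p' + α + β ≤ p + q) :
    arcsin p' + arcsin α + arcsin β ≤ arcsin p + arcsin q := by
  have m1 : arcsin p' ≤ arcsin p := monotone_arcsin h1
  rcases le_total (α + β) q with h | h
  · have k1 := arcsin_super hα hβ (h.trans hq)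
    have k2 : arcsin (α + β) ≤ arcsin q := monotone_arcsin h
    linarith
  · have k1 := cvx_pair arcsin_convex (u := α) (v := β) (p := α + β - q) (q := q) (by linarith) hq
      (by linarith) h2 (by ring)
    have k2 := arcsin_super (u := p') (v := α + β - q) hp' (by linarith) (by linarith)
    have k3 : arcsin (p' + (α + β - q)) ≤ arcsin p := monotone_arcsin (by linarith)
    linarith

/-- the Euclidean inequality -/
theorem euclid {a y b φ e : ℝ} (ha : 0 < a) (hy : 0 < y) (hb : 0 < b) (he : 0 < e)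
    (heφ : e ≤ φ) (hπ : φ + e ≤ π)
    (hc : a * b * sin e ≤ a * y * sin φ + y * b * sin (φ - e)) :
    sqrt (a ^ 2 + y ^ 2 + 2 * a * y * cos (φ + e)) + a + b ≤
      sqrt (a ^ 2 + y ^ 2 + 2 * a * y * cos φ) + sqrt (a ^ 2 + b ^ 2 + 2 * a * b * cos e) := by
  have he2 : e ≤ π / 2 := by linarith
  have sφ : 0 ≤ sin φ := sin_nonneg_of_nonneg_of_le_pi (by linarith) (by linarith)
  have se : 0 < sin e := sin_pos_of_pos_of_lt_pi he (by linarith [pi_pos])
  have sφe : 0 ≤ sin (φ + e) := sin_nonneg_of_nonneg_of_le_pi (by linarith) hπ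
  have ce : 0 ≤ cos e := cos_nonneg_of_neg_pi_div_two_le_of_le (by linarith) he2
  have sh : 0 < sin (e / 2) := sin_pos_of_pos_of_lt_pi (by linarith) (by linarith [pi_pos])
  have ch : 0 < cos (e / 2) := cos_pos_of_mem_Ioo ⟨by linarith [pi_pos], by linarith [pi_pos]⟩
  have sm : 0 ≤ sin (φ + e / 2) := sin_nonneg_of_nonneg_of_le_pi (by linarith) (by linarith)
  -- the three lengths
  set P := a ^ 2 + y ^ 2 + 2 * a * y * cos φ with hP
  set P' := a ^ 2 + y ^ 2 + 2 * a * y * cos (φ + e) with hP'
  set Q := a ^ 2 + b ^ 2 + 2 * a * b * cos e with hQ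
  have eP : P = (a + y * cos φ) ^ 2 + (y * sin φ) ^ 2 := by
    rw [hP]
    have := sin_sq_add_cos_sq φ
    linear_combination (-y ^ 2) * this
  have eP' : P' = (a + y * cos (φ + e)) ^ 2 + (y * sin (φ + e)) ^ 2 := by
    rw [hP']
    have := sin_sq_add_cos_sq (φ + e)
    linear_combination (-y ^ 2) * this
  have eQ : Q = (a + b * cos e) ^ 2 + (b * sin e) ^ 2 := by
    rw [hQ]
    have := sin_sq_add_cos_sq e
    linear_combination (-b ^ 2) * this
  have P0 : 0 ≤ P := by rw [eP]; positivity
  have P0' : 0 ≤ P' := by rw [eP']; positivity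
  have Q0 : 0 < Q := by rw [hQ]; positivity
  have hPP : P - P' = 4 * a * y * sin (φ + e / 2) * sin (e / 2) := by
    have h1 : cos φ - cos (φ + e) = 2 * sin (φ + e / 2) * sin (e / 2) := by
      rw [cos_sub_cos]
      have e1 : (φ + (φ + e)) / 2 = φ + e / 2 := by ring
      have e2 : (φ - (φ + e)) / 2 = -(e / 2) := by ring
      rw [e1, e2, sin_neg]
      ring
    rw [hP, hP']
    linear_combination (2 * a * y) * h1
  have hQQ : (a + b) ^ 2 - Q = 4 * a * b * sin (e / 2) ^ 2 := by
    have h1 : 1 - cos e = 2 * sin (e / 2) ^ 2 := by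
      have h3 := cos_two_mul (e / 2)
      have h2 := sin_sq_add_cos_sq (e / 2)
      have e3 : 2 * (e / 2) = e := by ring
      rw [e3] at h3
      linear_combination (-1) * h3 - 2 * h2
    rw [hQ]
    linear_combination (2 * a * b) * h1
  set p := sqrt P with hp
  set p' := sqrt P' with hp'
  set q := sqrt Q with hq
  have p0 : 0 ≤ p := sqrt_nonneg _
  have p0' : 0 ≤ p' := sqrt_nonneg _
  have q0 : 0 < q := sqrt_pos.2 Q0
  have pP : p ^ 2 = P := sq_sqrt P0
  have pP' : p' ^ 2 = P' := sq_sqrt P0'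
  have qQ : q ^ 2 = Q := sq_sqrt Q0.le
  have hpp : p' ≤ p := by
    refine sqrt_le_sqrt ?_
    have : 0 ≤ 4 * a * y * sin (φ + e / 2) * sin (e / 2) := by positivity
    linarith
  have hqab : q ≤ a + b := by
    refine abs_le_of_sq_le_sq' ?_ (by positivity) |>.2
    have : 0 ≤ 4 * a * b * sin (e / 2) ^ 2 := by positivity
    linarith
  -- (i)
  have hX : 0 ≤ y * sin φ * (a + b * cos e) - b * sin e * (a + y * cos φ) := by
    have h1 := sin_sub φ e
    rw [h1] at hc
    linarith [hc]
  have hY : 0 ≤ y * sin φ * (a + b * cos e) + b * sin e * (a + y * cos φ) := by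
    have h1 := sin_add φ e
    have h2 : 0 ≤ y * b * sin (φ + e) := by positivity
    rw [h1] at h2
    have h3 : 0 ≤ a * (y * sin φ) := by positivity
    have h4 : 0 ≤ a * (b * sin e) := by positivity
    nlinarith
  have hi : p * (b * sin e) ≤ q * (y * sin φ) := by
    refine abs_le_of_sq_le_sq' ?_ (by positivity) |>.2
    have h1 := mul_nonneg hX hY
    have h2 : (p * (b * sin e)) ^ 2 = P * (b * sin e) ^ 2 := by rw [mul_pow, pP]
    have h3 : (q * (y * sin φ)) ^ 2 = Q * (y * sin φ) ^ 2 := by rw [mul_pow, qQ]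
    rw [h2, h3, eP, eQ]
    nlinarith
  -- (ii)
  have hii : p * (b * sin (e / 2)) ≤ q * (y * sin (φ + e / 2)) := by
    have h1 : sin e = 2 * sin (e / 2) * cos (e / 2) := by
      rw [← sin_two_mul]
      congr 1
      ring
    have h2 : sin φ ≤ 2 * sin (φ + e / 2) * cos (e / 2) := by
      have h3 : 2 * sin (φ + e / 2) * cos (e / 2) = sin (φ + e) + sin φ := by
        have h4 := sin_add (φ + e / 2) (e / 2)
        have h5 := sin_sub (φ + e / 2) (e / 2)
        have e4 : φ + e / 2 + e / 2 = φ + e := by ring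
        have e5 : φ + e / 2 - e / 2 = φ := by ring
        rw [e4] at h4
        rw [e5] at h5
        linear_combination (-1) * h4 - h5
      linarith
    have h6 : p * (b * sin (e / 2)) * (2 * cos (e / 2)) ≤
        q * (y * sin (φ + e / 2)) * (2 * cos (e / 2)) := by
      have h7 : p * (b * sin (e / 2)) * (2 * cos (e / 2)) = p * (b * sin e) := by
        rw [h1]
        ring
      have h8 : q * (y * sin φ) ≤ q * (y * sin (φ + e / 2)) * (2 * cos (e / 2)) := by
        have h9 : 0 ≤ q * y := by positivity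
        nlinarith [mul_le_mul_of_nonneg_left h2 h9]
      rw [h7]
      exact hi.trans h8
    exact le_of_mul_le_mul_right h6 (by positivity)
  -- the end
  have key : (a + b - q) * (2 * p) * (2 * q) ≤ (p - p') * (2 * p) * (2 * q) := by
    have k1 : (a + b - q) * (2 * q) ≤ (a + b - q) * (a + b + q) :=
      mul_le_mul_of_nonneg_left (by linarith) (by linarith)
    have k2 : (a + b - q) * (a + b + q) = 4 * a * b * sin (e / 2) ^ 2 := by
      rw [← hQQ, ← qQ]
      ring
    have k3 : (p - p') * (p + p') = 4 * a * y * sin (φ + e / 2) * sin (e / 2) := by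
      rw [← hPP, ← pP, ← pP']
      ring
    have k4 : (p - p') * (p + p') ≤ (p - p') * (2 * p) :=
      mul_le_mul_of_nonneg_left (by linarith) (by linarith)
    have k5 : 4 * a * b * sin (e / 2) ^ 2 * (2 * p) ≤
        4 * a * y * sin (φ + e / 2) * sin (e / 2) * (2 * q) := by
      have h9 : 0 ≤ 8 * a * sin (e / 2) := by positivity
      nlinarith [mul_le_mul_of_nonneg_left hii h9]
    calc (a + b - q) * (2 * p) * (2 * q) = ((a + b - q) * (2 * q)) * (2 * p) := by ring
      _ ≤ ((a + b - q) * (a + b + q)) * (2 * p) := mul_le_mul_of_nonneg_right k1 (by positivity)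
      _ = 4 * a * b * sin (e / 2) ^ 2 * (2 * p) := by rw [k2]
      _ ≤ 4 * a * y * sin (φ + e / 2) * sin (e / 2) * (2 * q) := k5
      _ = ((p - p') * (p + p')) * (2 * q) := by rw [k3]
      _ ≤ ((p - p') * (2 * p)) * (2 * q) := mul_le_mul_of_nonneg_right k4 (by positivity)
      _ = _ := by ring
  rcases eq_or_lt_of_le p0 with h0 | h0
  · -- p = 0
    have hp00 : p' = 0 := le_antisymm (by linarith) p0'
    have h1 : y * sin (φ + e / 2) = 0 := by
      have h2 : 4 * a * y * sin (φ + e / 2) * sin (e / 2) = 0 := by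
        rw [← hPP, ← pP, ← pP', ← h0, hp00]
        ring
      rcases mul_eq_zero.1 h2 with h | h
      · rcases mul_eq_zero.1 h with h' | h'
        · exfalso
          have : 0 < 4 * a * y := by positivity
          linarith
        · rw [h', mul_zero]
      · linarith
    have h3 : sin (φ + e / 2) = 0 := by
      rcases mul_eq_zero.1 h1 with h | h
      · linarith
      · exact h
    have h4 : 0 < sin (φ + e / 2) := sin_pos_of_pos_of_lt_pi (by linarith) (by linarith)
    linarith
  · have h2 : 0 < 2 * p := by linarith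
    have h3 : 0 < 2 * q := by linarith
    have h4 : (a + b - q) * (2 * p) ≤ (p - p') * (2 * p) := le_of_mul_le_mul_right key h3
    have h5 : a + b - q ≤ p - p' := le_of_mul_le_mul_right h4 h2
    linarith

/-- X1: the four point inequality -/
theorem x1 {a y b φ e : ℝ} (ha : 0 < a) (hy : 0 < y) (hb : 0 < b) (he : 0 < e)
    (heφ : e ≤ φ) (hπ : φ + e ≤ π)
    (hc : a * b * sin e ≤ a * y * sin φ + y * b * sin (φ - e))
    (h1 : a ^ 2 + y ^ 2 + 2 * a * y * cos φ ≤ 1) (h2 : a ^ 2 + b ^ 2 + 2 * a * b * cos e ≤ 1) :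
    hdp a y (φ + e) + arcsin a + arcsin b ≤ hdp a y φ + hdp a b e := by
  have k := euclid ha hy hb he heφ hπ hc
  have he2 : e ≤ π / 2 := by linarith
  have ce : 0 ≤ cos e := cos_nonneg_of_neg_pi_div_two_le_of_le (by linarith) he2
  have hab : 0 ≤ 2 * a * b * cos e := by positivity
  unfold hdp
  refine arcsin_maj ha.le hb.le (sqrt_nonneg _) (sqrt_le_one.2 h1) (sqrt_le_one.2 h2) ?_ ?_ ?_ k
  · refine sqrt_le_sqrt ?_
    have h3 : cos (φ + e) ≤ cos φ :=
      cos_le_cos_of_nonneg_of_le_pi (by linarith) hπ (by linarith)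
    have h4 : 0 ≤ 2 * a * y := by positivity
    nlinarith [mul_le_mul_of_nonneg_left h3 h4]
  · refine le_sqrt_of_sq_le ?_
    nlinarith [sq_nonneg b]
  · refine le_sqrt_of_sq_le ?_
    nlinarith [sq_nonneg a]

end H82EF
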