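import Pool.Agent.Helper72.EF.P
import Pool.Agent.Helper82.EF.X1

/-!
MP_efd95c, wheels: Theorem P with the four point inequality X1 built in.
-/

set_option autoImplicit false
noncomputable section
namespace H82EF

open Real

/-- X1 for half arcs -/
theorem x1h {a b y φ e Y G D : ℝ} (ha : 0 < a) (ha1 : a ≤ π / 2) (hb : 0 < b) (hb1 : b ≤ π / 2)
    (hy : 0 < y) (hy1 : y ≤ π / 2) (he : 0 < e) (heφ : e ≤ φ) (hπ : φ + e ≤ π)
    (hc : sin a * sin b * sin e ≤ sin a * sin y * sin φ + sin y * sin b * sin (φ - e))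
    (hG0 : 0 ≤ G) (hG1 : G ≤ π / 2) (hY0 : 0 ≤ Y) (hY1 : Y ≤ π / 2)
    (eG : sin G ^ 2 = sin a ^ 2 + sin b ^ 2 + 2 * sin a * sin b * cos e)
    (eY : sin Y ^ 2 = sin a ^ 2 + sin y ^ 2 + 2 * sin a * sin y * cos φ)
    (hD0 : 0 ≤ D) (hD1 : D ≤ π / 2)
    (eD : sin D ^ 2 = sin a ^ 2 + sin y ^ 2 + 2 * sin a * sin y * cos (φ + e)) :
    D + a + b ≤ Y + G := by
  have hp := pi_pos
  have sa : 0 < sin a := sin_pos_of_pos_of_lt_pi ha (by linarith)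
  have sb : 0 < sin b := sin_pos_of_pos_of_lt_pi hb (by linarith)
  have sy : 0 < sin y := sin_pos_of_pos_of_lt_pi hy (by linarith)
  have h1 : sin a ^ 2 + sin y ^ 2 + 2 * sin a * sin y * cos φ ≤ 1 := by
    rw [← eY]
    exact sin_sq_le_one Y
  have h2 : sin a ^ 2 + sin b ^ 2 + 2 * sin a * sin b * cos e ≤ 1 := by
    rw [← eG]
    exact sin_sq_le_one G
  have k := x1 sa sy sb he heφ hπ hc h1 h2
  unfold hdp at k
  have hs : ∀ z : ℝ, 0 ≤ z → z ≤ π / 2 → arcsin (sqrt (sin z ^ 2)) = z := by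
    intro z h0 h1
    rw [sqrt_sq (sin_nonneg_of_nonneg_of_le_pi h0 (by linarith)), arcsin_sin (by linarith) h1]
  rw [← eG, ← eY, ← eD, hs D hD0 hD1, hs Y hY0 hY1, hs G hG0 hG1,
    arcsin_sin (by linarith) ha1, arcsin_sin (by linarith) hb1] at k
  exact k

/-- THEOREM P -/
theorem thmP {a b y x G Y X e t φ : ℝ}
    (ha : 0 < a) (ha1 : a ≤ π / 2) (hb : 0 < b) (hb1 : b ≤ π / 2) (hy : 0 < y)
    (hyx : y ≤ x) (hx1 : x ≤ π / 2) (hxt : x ≤ y + t)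
    (he0 : 0 < e) (he1 : e ≤ π / 2) (het : e ≤ t) (ht1 : t ≤ π / 2) (heφ : e ≤ φ)
    (hφt : φ + t ≤ π) (hωy : a + y ≤ φ) (hωb : e - b ≤ φ - y)
    (hG0 : 0 ≤ G) (hG1 : G ≤ π / 2) (hY0 : 0 ≤ Y) (hY1 : Y ≤ π / 2) (hX1 : X ≤ π / 2)
    (eG : sin G ^ 2 = sin a ^ 2 + sin b ^ 2 + 2 * sin a * sin b * cos e)
    (eY : sin Y ^ 2 = sin a ^ 2 + sin y ^ 2 + 2 * sin a * sin y * cos φ)
    (eX : sin X ^ 2 = sin a ^ 2 + sin x ^ 2 + 2 * sin a * sin x * cos (φ + t))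
    (hc : sin a * sin b * sin e ≤ sin a * sin y * sin φ + sin y * sin b * sin (φ - e)) :
    X + y + a + b ≤ x + Y + G :=
  Pool.Agent.Helper72.EF.thmP ha ha1 hb hb1 hy hyx hx1 hxt he0 he1 het ht1 hφt hωy hωb hG0 hG1
    hY0 hY1 hX1 eG eY eX fun _ h0 h1 eD =>
      x1h ha ha1 hb hb1 hy (hyx.trans hx1) he0 heφ (by linarith) hc hG0 hG1 hY0 hY1 eG eY h0 h1 eD

end H82EF
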